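import Pool.Agent.Helper19.RG.Sym

/-!
Every side with seven vertices is, up to a symmetry, in the frame. (Problem MP_d067c8_co.)
-/

namespace Pool.Agent.Helper19.RG

open Finset Pool.Agent.Helper19.CF

section

variable {N : ℕ} [NeZero N] {f : Equiv.Perm (ZMod N)} {Y : Finset (ZMod N ⊕ ZMod N)}

omit [NeZero N] in
/-- Small differences in `ZMod N`. -/
theorem small_ne (hN : 9 ≤ N) {j k : ℕ} (hj : j < 9) (hk : k < 9) (hjk : j ≠ k) (c : ZMod N) :
    c + (j : ZMod N) ≠ c + (k : ZMod N) := by
  intro h
  have h1 : (j : ZMod N) = (k : ZMod N) := add_left_cancel h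
  have h2 := congrArg ZMod.val h1
  rw [ZMod.val_natCast_of_lt (by omega), ZMod.val_natCast_of_lt (by omega)] at h2
  exact hjk h2

/-- The crossing spoke is unique. -/
theorem cross_unique (hN : 5 < N) (hY : Side f Y) {x x' : ZMod N}
    (h : ¬ ((.inl x : ZMod N ⊕ ZMod N) ∈ Y ↔ (.inr (f x) : ZMod N ⊕ ZMod N) ∈ Y))
    (h' : ¬ ((.inl x' : ZMod N ⊕ ZMod N) ∈ Y ↔ (.inr (f x') : ZMod N ⊕ ZMod N) ∈ Y)) :
    x = x' := by
  classical
  obtain ⟨c, d, l, m, x0, h1, h2, h3, h4, h5, h6, h7, h8⟩ :=
    cut_arcs hN hY.dd (by have := hY.seven; omega) (by have := hY.seven'; omega)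
  have e1 : x = x0 := by
    by_contra hx
    exact h (h8 x hx)
  have e2 : x' = x0 := by
    by_contra hx
    exact h' (h8 x' hx)
  rw [e1, e2]

/-- A side with a crossing spoke starting on the first rim. -/
theorem ha_of_star (hN : 5 < N) (hY : Side f Y) {x : ZMod N}
    (h1 : (.inl x : ZMod N ⊕ ZMod N) ∈ Y) (h2 : (.inr (f x) : ZMod N ⊕ ZMod N) ∉ Y) :
    ∃ c d m, HA f Y c d x m := by
  rcases side_cases hN hY with ⟨c, d, x0, m, h⟩ | ⟨x1, g1, g2⟩
  · have e : x = x0 := cross_unique hN hY (fun h' => h2 (h'.mp h1))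
      (fun h' => h.star2 (h'.mp h.star1))
    subst e
    exact ⟨c, d, m, h⟩
  · have e : x = x1 := cross_unique hN hY (fun h' => h2 (h'.mp h1)) (fun h' => g1 (h'.mpr g2))
    subst e
    exact absurd h1 g1

/-- Seven vertices, star on the first rim: coordinates. -/
theorem seven_A (hb : Bad f) (hY : Side f Y) (h7 : Y.card = 7) {x : ZMod N}
    (h1 : (.inl x : ZMod N ⊕ ZMod N) ∈ Y) (h2 : (.inr (f x) : ZMod N ⊕ ZMod N) ∉ Y) :
    ∃ c d : ZMod N, (∀ y, (.inl y : ZMod N ⊕ ZMod N) ∈ Y ↔
        (y = c ∨ y = c + 1 ∨ y = c + 2 ∨ y = c + 3)) ∧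
      (∀ y, (.inr y : ZMod N ⊕ ZMod N) ∈ Y ↔ (y = d ∨ y = d + 1 ∨ y = d + 2)) ∧
      (x = c + 1 ∨ x = c + 2) ∧
      (∀ y, y ≠ x → ((.inl y : ZMod N ⊕ ZMod N) ∈ Y ↔ (.inr (f y) : ZMod N ⊕ ZMod N) ∈ Y)) := by
  have hN := hb.hN
  obtain ⟨c, d, m, h⟩ := ha_of_star (by omega) hY h1 h2
  have hm : m = 3 := by
    have := h.card
    omega
  subst hm
  have key : ∀ (u w : ZMod N) (j : ℕ), 1 ≤ j → j ≤ 4 → ((u - w).val = j ↔ u = w + j) := by
    intro u w j hj1 hj2
    constructor
    · intro h3
      rw [← h3, ZMod.natCast_zmod_val]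
      ring
    · intro h3
      have h4 : u - w = j := by rw [h3]; ring
      rw [h4, ZMod.val_natCast_of_lt (by omega)]
  have e1 : ∀ w : ZMod N, w + ((1 : ℕ) : ZMod N) = w + 1 := fun w => by push_cast; ring
  have e2 : ∀ w : ZMod N, w + ((2 : ℕ) : ZMod N) = w + 1 + 1 := fun w => by push_cast; ring
  have e3 : ∀ w : ZMod N, w + ((3 : ℕ) : ZMod N) = w + 1 + 2 := fun w => by push_cast; ring
  have e4 : ∀ w : ZMod N, w + ((4 : ℕ) : ZMod N) = w + 1 + 3 := fun w => by push_cast; ring
  have hA : ∀ y, (.inl y : ZMod N ⊕ ZMod N) ∈ Y ↔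
      (y = c + 1 ∨ y = c + 1 + 1 ∨ y = c + 1 + 2 ∨ y = c + 1 + 3) := by
    intro y
    rw [h.memA, ← e4 c, ← e3 c, ← e2 c, ← e1 c, ← key y c 1 (by omega) (by omega),
      ← key y c 2 (by omega) (by omega), ← key y c 3 (by omega) (by omega),
      ← key y c 4 (by omega) (by omega)]
    omega
  have hB : ∀ y, (.inr y : ZMod N ⊕ ZMod N) ∈ Y ↔
      (y = d + 1 ∨ y = d + 1 + 1 ∨ y = d + 1 + 2) := by
    intro y
    rw [h.memB, ← e3 d, ← e2 d, ← e1 d, ← key y d 1 (by omega) (by omega),
      ← key y d 2 (by omega) (by omega), ← key y d 3 (by omega) (by omega)]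
    omega
  refine ⟨c + 1, d + 1, hA, hB, ?_, h.other⟩
  obtain ⟨s1, s2, s3, s4⟩ := hY.starA hb h1 h2
  have n1 := small_ne hN (j := 0) (k := 1) (by omega) (by omega) (by omega)
  have n2 := small_ne hN (j := 0) (k := 2) (by omega) (by omega) (by omega)
  have n3 := small_ne hN (j := 0) (k := 3) (by omega) (by omega) (by omega)
  have n4 := small_ne hN (j := 0) (k := 4) (by omega) (by omega) (by omega)
  rw [hA] at h1 s1 s2
  push_cast at n1 n2 n3 n4
  rcases h1 with h1 | h1 | h1 | h1
  · exfalso
    subst h1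
    rcases s2 with g | g | g | g
    · exact n1 c (by linear_combination g)
    · exact n2 c (by linear_combination g)
    · exact n3 c (by linear_combination g)
    · exact n4 c (by linear_combination g)
  · exact Or.inl h1
  · exact Or.inr h1
  · exfalso
    subst h1
    rcases s1 with g | g | g | g
    · exact n4 c (by linear_combination -g)
    · exact n3 c (by linear_combination -g)
    · exact n2 c (by linear_combination -g)
    · exact n1 c (by linear_combination -g)

/-- Star on the first rim, on the right. -/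
theorem seven_right (hb : Bad f) {c d : ZMod N}
    (hA : ∀ y, (.inl y : ZMod N ⊕ ZMod N) ∈ Y ↔ (y = c - 2 ∨ y = c - 1 ∨ y = c ∨ y = c + 1))
    (hB : ∀ y, (.inr y : ZMod N ⊕ ZMod N) ∈ Y ↔ (y = d ∨ y = d + 1 ∨ y = d + 2))
    (hs : ∀ y, y ≠ c → ((.inl y : ZMod N ⊕ ZMod N) ∈ Y ↔
      (.inr (f y) : ZMod N ⊕ ZMod N) ∈ Y)) :
    Y = m7 c d ∧ (M7 f c d ∨ (f (c - 2) = d ∧ f (c - 1) = d + 2 ∧ f (c + 1) = d + 1)) := by
  have hN := hb.hN
  refine ⟨?_, ?_⟩
  · ext v
    rcases v with v | v
    · rw [hA, mem_m7_l hN]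
    · rw [hB, mem_m7_r hN]
  · have e1 : (1 : ZMod N) = 1 ∨ (1 : ZMod N) = -1 := Or.inl rfl
    have e2 : (-1 : ZMod N) = 1 ∨ (-1 : ZMod N) = -1 := Or.inr rfl
    have n1 := small_ne hN (j := 0) (k := 1) (by omega) (by omega) (by omega)
    have n2 := small_ne hN (j := 0) (k := 2) (by omega) (by omega) (by omega)
    have n3 := small_ne hN (j := 0) (k := 3) (by omega) (by omega) (by omega)
    push_cast at n1 n2 n3
    have a1 : c - 2 ≠ c := fun h => n2 c (by linear_combination h)
    have a2 : c - 1 ≠ c := fun h => n1 c (by linear_combination h)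
    have a3 : c + 1 ≠ c := fun h => n1 c (by linear_combination -h)
    have b1 := (hB _).mp ((hs (c - 2) a1).mp ((hA _).mpr (by tauto)))
    have b2 := (hB _).mp ((hs (c - 1) a2).mp ((hA _).mpr (by tauto)))
    have b3 := (hB _).mp ((hs (c + 1) a3).mp ((hA _).mpr (by tauto)))
    have d12 : f (c - 2) ≠ f (c - 1) := fun h => by
      have := f.injective h
      exact n1 (c - 2) (by linear_combination this)
    have d13 : f (c - 2) ≠ f (c + 1) := fun h => by
      have := f.injective h
      exact n3 (c - 2) (by linear_combination this)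
    have d23 : f (c - 1) ≠ f (c + 1) := fun h => by
      have := f.injective h
      exact n2 (c - 1) (by linear_combination this)
    have f1 := no_four (σ := f) (by omega) hb.cyc (a := c - 2) e1 e1
    have f2 := no_four (σ := f) (by omega) hb.cyc (a := c - 2) e1 e2
    have e3 : c - 2 + 1 = c - 1 := by ring
    rw [e3] at f1 f2
    have e4 : d = d + 1 + -1 := by ring
    have e5 : d + 2 = d + 1 + 1 := by ring
    have e6 : d + 1 = d + 2 + -1 := by ring
    rcases b1 with b1 | b1 | b1 <;> rcases b2 with b2 | b2 | b2 <;>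
      rcases b3 with b3 | b3 | b3 <;> rw [b1] at f1 f2 d12 d13 <;> rw [b2] at f1 f2 d12 d23 <;>
      rw [b3] at d13 d23 <;>
      first
        | exact absurd rfl d12
        | exact absurd rfl d13
        | exact absurd rfl d23
        | exact absurd rfl f1
        | exact absurd e4 f2
        | exact absurd e5 f1
        | exact absurd e6 f2
        | exact Or.inl ⟨b1, b2, b3⟩
        | exact Or.inr ⟨b1, b2, b3⟩

/-- Star on the first rim. -/
theorem frame_A (hb : Bad f) (hY : Side f Y) (h7 : Y.card = 7) {x : ZMod N}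
    (h1 : (.inl x : ZMod N ⊕ ZMod N) ∈ Y) (h2 : (.inr (f x) : ZMod N ⊕ ZMod N) ∉ Y) :
    ∃ (f' : Equiv.Perm (ZMod N)) (s : Sym f f') (c d : ZMod N), M7 f' c d ∧
      im s.φ Y = m7 c d := by
  have hN := hb.hN
  have hN1 : 1 < N := by omega
  -- the mirror image in the rows, if necessary
  have step : ∀ (g : Equiv.Perm (ZMod N)) (Z : Finset (ZMod N ⊕ ZMod N)) (t : Sym f g),
      im t.φ Y = Z → ∀ c d : ZMod N, Z = m7 c d →
      (M7 g c d ∨ (g (c - 2) = d ∧ g (c - 1) = d + 2 ∧ g (c + 1) = d + 1)) →
      ∃ (f' : Equiv.Perm (ZMod N)) (s : Sym f f') (c d : ZMod N), M7 f' c d ∧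
        im s.φ Y = m7 c d := by
    intro g Z t hZ c d hm h
    rcases h with h | ⟨g1, g2, g3⟩
    · exact ⟨g, t, c, d, h, by rw [hZ, hm]⟩
    · refine ⟨mir g, t.trans (mirSym hN1 g), c, -d - 2, ⟨?_, ?_, ?_⟩, ?_⟩
      · rw [mir_apply, g1]; ring
      · rw [mir_apply, g2]; ring
      · rw [mir_apply, g3]; ring
      · have e : im (t.trans (mirSym hN1 g)).φ Y = im (mirIso hN1 g) Z := by
          rw [← hZ]
          ext v
          rw [mem_im', mem_im', mem_im']
          rfl
        rw [e, hm]
        ext v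
        rcases v with v | v
        · rw [mir_inl, mem_m7_l hN, mem_m7_l hN]
        · rw [mir_inr, mem_m7_r hN, mem_m7_r hN]
          constructor
          · rintro (h | h | h)
            · right; right; linear_combination -h
            · right; left; linear_combination -h
            · left; linear_combination -h
          · rintro (h | h | h)
            · right; right; linear_combination -h
            · right; left; linear_combination -h
            · left; linear_combination -h
  obtain ⟨c, d, hA, hB, hx, hs⟩ := seven_A hb hY h7 h1 h2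
  rcases hx with hx | hx
  · -- mirror image in the columns
    have mA : ∀ y, (.inl y : ZMod N ⊕ ZMod N) ∈
        im (((halfSym hN1 f).trans (mirSym hN1 (half f))).φ) Y ↔
        (.inl (-y) : ZMod N ⊕ ZMod N) ∈ Y := by
      intro y
      rw [mem_im']
      rfl
    have mB : ∀ y, (.inr y : ZMod N ⊕ ZMod N) ∈
        im (((halfSym hN1 f).trans (mirSym hN1 (half f))).φ) Y ↔
        (.inr y : ZMod N ⊕ ZMod N) ∈ Y := by
      intro y
      rw [mem_im']
      have : (((halfSym hN1 f).trans (mirSym hN1 (half f))).φ).symm (.inr y) =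
          (.inr (- -y) : ZMod N ⊕ ZMod N) := rfl
      rw [this, neg_neg]
    have happ : ∀ y, mir (half f) y = f (-y) := by
      intro y
      rw [mir_apply, half_apply, neg_neg]
    have hb' : Bad (mir (half f)) := hb.iso (((halfSym hN1 f).trans (mirSym hN1 (half f))).φ)
    have hx' : -x = -c - 1 := by rw [hx]; ring
    obtain ⟨k1, k2⟩ := seven_right hb' (Y := im (((halfSym hN1 f).trans (mirSym hN1 (half f))).φ) Y) (c := -x) (d := d)
      (by
        intro y
        rw [mA, hA, hx']
        constructor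
        · rintro (h | h | h | h)
          · right; right; right; linear_combination -h
          · right; right; left; linear_combination -h
          · right; left; linear_combination -h
          · left; linear_combination -h
        · rintro (h | h | h | h)
          · right; right; right; linear_combination -h
          · right; right; left; linear_combination -h
          · right; left; linear_combination -h
          · left; linear_combination -h)
      (fun y => by rw [mB, hB])
      (by
        intro y hy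
        rw [mA, mB, happ]
        refine hs (-y) ?_
        intro h
        exact hy (by rw [← h, neg_neg]))
    exact step _ _ _ rfl _ _ k1 k2
  · obtain ⟨k1, k2⟩ := seven_right hb (Y := Y) (c := x) (d := d)
      (by
        intro y
        rw [hA, hx]
        constructor
        · rintro (h | h | h | h)
          · left; linear_combination h
          · right; left; linear_combination h
          · right; right; left; linear_combination h
          · right; right; right; linear_combination h
        · rintro (h | h | h | h)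
          · left; linear_combination h
          · right; left; linear_combination h
          · right; right; left; linear_combination h
          · right; right; right; linear_combination h)
      hB hs
    refine step f Y (Sym.refl f) ?_ _ _ k1 k2
    ext v
    rw [mem_im']
    rfl

/-- Every side with seven vertices is in the frame, up to a symmetry. -/
theorem exists_frame (hb : Bad f) {Y : Finset (ZMod N ⊕ ZMod N)} (hY : Side f Y)
    (h7 : Y.card = 7) :
    ∃ (f' : Equiv.Perm (ZMod N)) (s : Sym f f') (c d : ZMod N), M7 f' c d ∧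
      im s.φ Y = m7 c d := by
  have hN := hb.hN
  have hN1 : 1 < N := by omega
  rcases side_cases (by omega) hY with ⟨c, d, x0, m, h⟩ | ⟨x1, g1, g2⟩
  · exact frame_A hb hY h7 h.star1 h.star2
  · have hb' : Bad (rot f) := hb.iso (rotIso hN1 f)
    have hY' := hY.im (rotIso hN1 f)
    have h7' : (im (rotIso hN1 f) Y).card = 7 := by
      rw [← h7]
      exact card_map _
    obtain ⟨f', s, c, d, k1, k2⟩ := frame_A hb' hY' h7' (x := f x1)
      (by rw [rot_inl]; exact g2)
      (by rw [rot_inr, rot_apply, Equiv.symm_apply_apply, neg_neg]; exact g1)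
    refine ⟨f', (rotSym hN1 f).trans s, c, d, k1, ?_⟩
    rw [← k2]
    ext v
    rw [mem_im', mem_im', mem_im']
    rfl

omit [NeZero N] in
theorem card_im {f' : Equiv.Perm (ZMod N)} (φ : permGraph N f ≃g permGraph N f')
    (Z : Finset (ZMod N ⊕ ZMod N)) : (im φ Z).card = Z.card := card_map _

omit [NeZero N] in
theorem im_subset {f' : Equiv.Perm (ZMod N)} (φ : permGraph N f ≃g permGraph N f')
    {Z W : Finset (ZMod N ⊕ ZMod N)} : im φ Z ⊆ im φ W ↔ Z ⊆ W := map_subset_map

/-- From the frame to all positions. -/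
theorem no_nine_of
    (H : ∀ (g : Equiv.Perm (ZMod N)) (c d : ZMod N), Bad g → M7 g c d →
      ∀ X : Finset (ZMod N ⊕ ZMod N), Side g X → X.card = 9 → ¬ m7 c d ⊆ X)
    (hb : Bad f) {X Y : Finset (ZMod N ⊕ ZMod N)} (hX : Side f X) (h9 : X.card = 9)
    (hY : Side f Y) (h7 : Y.card = 7) : ¬ Y ⊆ X := by
  intro hYX
  obtain ⟨f', s, c, d, k1, k2⟩ := exists_frame hb hY h7
  refine H f' c d (hb.iso s.φ) k1 (im s.φ X) (hX.im s.φ) (by rw [card_im, h9]) ?_
  rw [← k2, im_subset]
  exact hYX

end

end Pool.Agent.Helper19.RG
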