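import Pool.Agent.Helper21.RG.Frame
import Pool.Agent.Helper56.M7.Step0

/-!
Consequences of the absence of nine-vertex sides containing a seven-vertex side: the
positions T1, T2, T3 do not occur, and no seven-vertex side has the star `b`.
(Problem MP_d067c8_co.)
-/

namespace Pool.Agent.Helper19.RG

open Finset Pool.Agent.Helper19.CF

section

variable {N : ℕ} [NeZero N] {f : Equiv.Perm (ZMod N)} {c d : ZMod N}

theorem val_lt_iff (hN : 9 ≤ N) {l : ℕ} (hl : l ≤ 5) (x u : ZMod N) :
    (x - u).val < l ↔ ∃ j : ℕ, j < l ∧ x = u + j := by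
  constructor
  · intro h
    refine ⟨(x - u).val, h, ?_⟩
    rw [ZMod.natCast_zmod_val]
    ring
  · rintro ⟨j, hj, rfl⟩
    have h1 : u + (j : ZMod N) - u = j := by ring
    rw [h1, ZMod.val_natCast_of_lt (by omega)]
    exact hj

/-- Membership in an arc of length four. -/
theorem arc4 (hN : 9 ≤ N) (x u : ZMod N) :
    (x - u).val < 4 ↔ x = u ∨ x = u + 1 ∨ x = u + 2 ∨ x = u + 3 := by
  rw [val_lt_iff hN (by omega)]
  constructor
  · rintro ⟨j, hj, rfl⟩
    have h : j = 0 ∨ j = 1 ∨ j = 2 ∨ j = 3 := by omega
    rcases h with rfl | rfl | rfl | rfl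
    · left; simp
    · right; left; simp
    · right; right; left; simp
    · right; right; right; simp
  · rintro (h | h | h | h)
    · exact ⟨0, by omega, by simp [h]⟩
    · exact ⟨1, by omega, by simp [h]⟩
    · exact ⟨2, by omega, by simp [h]⟩
    · exact ⟨3, by omega, by simp [h]⟩

/-- Membership in an arc of length five. -/
theorem arc5 (hN : 9 ≤ N) (x u : ZMod N) :
    (x - u).val < 5 ↔ x = u ∨ x = u + 1 ∨ x = u + 2 ∨ x = u + 3 ∨ x = u + 4 := by
  rw [val_lt_iff hN (by omega)]
  constructor
  · rintro ⟨j, hj, rfl⟩
    have h : j = 0 ∨ j = 1 ∨ j = 2 ∨ j = 3 ∨ j = 4 := by omega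
    rcases h with rfl | rfl | rfl | rfl | rfl
    · left; simp
    · right; left; simp
    · right; right; left; simp
    · right; right; right; left; simp
    · right; right; right; right; simp
  · rintro (h | h | h | h | h)
    · exact ⟨0, by omega, by simp [h]⟩
    · exact ⟨1, by omega, by simp [h]⟩
    · exact ⟨2, by omega, by simp [h]⟩
    · exact ⟨3, by omega, by simp [h]⟩
    · exact ⟨4, by omega, by simp [h]⟩

/-- Position T1 does not occur. -/
theorem M7.ne_T1 (hN : 9 ≤ N) (h : M7 f c d)
    (H : ∀ X : Finset (ZMod N ⊕ ZMod N), Side f X → X.card = 9 → ¬ m7 c d ⊆ X) :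
    f (c - 3) ≠ d - 1 := by
  intro h1
  obtain ⟨k1, k2⟩ := side_A (f := f) (Y := arcs (c - 3) (d - 1) 5 4) (c := c - 3) (d := d - 1)
    (m := 4) (by omega) (by omega) (by omega) (by omega) (fun x => mem_arcs_l x)
    (fun y => mem_arcs_r y) (by
      intro x hx
      rw [mem_arcs_r, arc4 hN] at hx
      rw [mem_arcs_l, arc5 hN]
      rcases hx with hx | hx | hx | hx
      · rw [← h1] at hx
        left
        exact f.injective hx
      · have e : f x = f (c - 1) := by rw [hx, h.b]; ring
        right; right; left
        rw [f.injective e]; ring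
      · have e : f x = f (c + 1) := by rw [hx, h.g]; ring
        right; right; right; right
        rw [f.injective e]; ring
      · have e : f x = f (c - 2) := by rw [hx, h.a]; ring
        right; left
        rw [f.injective e]; ring)
  refine H _ k1 k2 ?_
  intro v hv
  rcases v with v | v
  · rw [mem_m7_l hN] at hv
    rw [mem_arcs_l, arc5 hN]
    rcases hv with hv | hv | hv | hv
    · right; left; rw [hv]; ring
    · right; right; left; rw [hv]; ring
    · right; right; right; left; rw [hv]; ring
    · right; right; right; right; rw [hv]; ring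
  · rw [mem_m7_r hN] at hv
    rw [mem_arcs_r, arc4 hN]
    rcases hv with hv | hv | hv
    · right; left; rw [hv]; ring
    · right; right; left; rw [hv]; ring
    · right; right; right; rw [hv]; ring

/-- Position T2 does not occur. -/
theorem M7.ne_T2 (hN : 9 ≤ N) (h : M7 f c d)
    (H : ∀ X : Finset (ZMod N ⊕ ZMod N), Side f X → X.card = 9 → ¬ m7 c d ⊆ X) :
    f (c + 2) ≠ d - 1 := by
  intro h1
  obtain ⟨k1, k2⟩ := side_A (f := f) (Y := arcs (c - 2) (d - 1) 5 4) (c := c - 2) (d := d - 1)
    (m := 4) (by omega) (by omega) (by omega) (by omega) (fun x => mem_arcs_l x)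
    (fun y => mem_arcs_r y) (by
      intro x hx
      rw [mem_arcs_r, arc4 hN] at hx
      rw [mem_arcs_l, arc5 hN]
      rcases hx with hx | hx | hx | hx
      · rw [← h1] at hx
        right; right; right; right
        rw [f.injective hx]; ring
      · have e : f x = f (c - 1) := by rw [hx, h.b]; ring
        right; left
        rw [f.injective e]; ring
      · have e : f x = f (c + 1) := by rw [hx, h.g]; ring
        right; right; right; left
        rw [f.injective e]; ring
      · have e : f x = f (c - 2) := by rw [hx, h.a]; ring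
        left
        exact f.injective e)
  refine H _ k1 k2 ?_
  intro v hv
  rcases v with v | v
  · rw [mem_m7_l hN] at hv
    rw [mem_arcs_l, arc5 hN]
    rcases hv with hv | hv | hv | hv
    · left; exact hv
    · right; left; rw [hv]; ring
    · right; right; left; rw [hv]; ring
    · right; right; right; left; rw [hv]; ring
  · rw [mem_m7_r hN] at hv
    rw [mem_arcs_r, arc4 hN]
    rcases hv with hv | hv | hv
    · right; left; rw [hv]; ring
    · right; right; left; rw [hv]; ring
    · right; right; right; rw [hv]; ring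

/-- Position T3 does not occur. -/
theorem M7.ne_T3 (hN : 9 ≤ N) (h : M7 f c d)
    (H : ∀ X : Finset (ZMod N ⊕ ZMod N), Side f X → X.card = 9 → ¬ m7 c d ⊆ X) :
    f c ≠ d - 2 := by
  intro h1
  obtain ⟨k1, k2⟩ := side_B (f := f) (Y := arcs (c - 2) (d - 2) 4 5) (c := c - 2) (d := d - 2)
    (m := 4) (by omega) (by omega) (by omega) (by omega) (fun x => mem_arcs_l x)
    (fun y => mem_arcs_r y) (by
      intro x hx
      rw [mem_arcs_l, arc4 hN] at hx
      rw [mem_arcs_r, arc5 hN]
      rcases hx with hx | hx | hx | hx
      · right; right; right; right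
        rw [hx, h.a]; ring
      · have e : x = c - 1 := by rw [hx]; ring
        right; right; left
        rw [e, h.b]; ring
      · have e : x = c := by rw [hx]; ring
        left
        rw [e, h1]
      · have e : x = c + 1 := by rw [hx]; ring
        right; right; right; left
        rw [e, h.g]; ring)
  refine H _ k1 k2 ?_
  intro v hv
  rcases v with v | v
  · rw [mem_m7_l hN] at hv
    rw [mem_arcs_l, arc4 hN]
    rcases hv with hv | hv | hv | hv
    · left; exact hv
    · right; left; rw [hv]; ring
    · right; right; left; rw [hv]; ring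
    · right; right; right; rw [hv]; ring
  · rw [mem_m7_r hN] at hv
    rw [mem_arcs_r, arc5 hN]
    rcases hv with hv | hv | hv
    · right; right; left; rw [hv]; ring
    · right; right; right; left; rw [hv]; ring
    · right; right; right; right; rw [hv]; ring

/-- No seven-vertex side has the star `b`. -/
theorem M7.no_star_b (hb : Bad f) (h : M7 f c d)
    (H : ∀ X : Finset (ZMod N ⊕ ZMod N), Side f X → X.card = 9 → ¬ m7 c d ⊆ X)
    {Y : Finset (ZMod N ⊕ ZMod N)} (hY : Side f Y) (h7 : Y.card = 7) :
    (.inl (c - 1) : ZMod N ⊕ ZMod N) ∈ Y ↔ (.inr d : ZMod N ⊕ ZMod N) ∈ Y := by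
  have hN := hb.hN
  have n1 := small_ne hN (j := 0) (k := 1) (by omega) (by omega) (by omega)
  have n2 := small_ne hN (j := 0) (k := 2) (by omega) (by omega) (by omega)
  have n3 := small_ne hN (j := 0) (k := 3) (by omega) (by omega) (by omega)
  have n4 := small_ne hN (j := 0) (k := 4) (by omega) (by omega) (by omega)
  push_cast at n1 n2 n3 n4
  obtain ⟨t1, t2, t3, t4, t5⟩ := h.step0 hb
  obtain ⟨y1, y2⟩ := h.y_ne hb
  have v4 : (4 : ZMod N).val = 4 := by
    have : ((4 : ℕ) : ZMod N).val = 4 := ZMod.val_natCast_of_lt (by omega)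
    exact_mod_cast this
  have v3 : (3 : ZMod N).val = 3 := by
    have : ((3 : ℕ) : ZMod N).val = 3 := ZMod.val_natCast_of_lt (by omega)
    exact_mod_cast this
  constructor
  · intro hA
    by_contra hB
    have hB' : (.inr (f (c - 1)) : ZMod N ⊕ ZMod N) ∉ Y := by rw [h.b]; exact hB
    obtain ⟨c', d', e1, e2, e3, e4⟩ := seven_A hb hY h7 hA hB'
    obtain ⟨s1, s2, s3, s4⟩ := hY.starA hb hA hB'
    rw [h.b] at s3 s4
    have g1 : c - 1 + 1 = c := by ring
    have g2 : c - 1 - 1 = c - 2 := by ring
    rw [g1] at s1
    rw [g2] at s2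
    have k1 := (e4 c (fun hh => n1 (c - 1) (by linear_combination -hh))).mp s1
    have k2 := (e4 (c - 2) (fun hh => n1 (c - 2) (by linear_combination hh))).mp s2
    rw [h.a] at k2
    rw [e2] at k1 k2
    have hB2 := hB
    have s32 := s3
    rw [e2] at hB2 s32
    push Not at hB2 s32
    -- the rows of `e` and `a`
    have key : f c = d + 2 ∨ f c = d + 3 ∨ f c = d + 4 ∨ f c = d + 1 ∨ f c = d := by
      rcases k2 with k2 | k2 | k2 <;> rcases k1 with k1 | k1 | k1
      · left; linear_combination k1 - k2
      · right; left; linear_combination k1 - k2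
      · right; right; left; linear_combination k1 - k2
      · right; right; right; left; linear_combination k1 - k2
      · left; linear_combination k1 - k2
      · right; left; linear_combination k1 - k2
      · right; right; right; right; linear_combination k1 - k2
      · right; right; right; left; linear_combination k1 - k2
      · left; linear_combination k1 - k2
    rcases key with hk | hk | hk | hk | hk
    · rw [← h.a] at hk
      have := f.injective hk
      exact n2 (c - 2) (by linear_combination -this)
    · exact y1 hk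
    · have : f c - d = 4 := by rw [hk]; ring
      rw [this, v4] at t5
      omega
    · rw [← h.g] at hk
      have := f.injective hk
      exact n1 c (by linear_combination this)
    · rw [← h.b] at hk
      have := f.injective hk
      exact n1 (c - 1) (by linear_combination -this)
  · intro hB
    by_contra hA
    have hB' : (.inr (f (c - 1)) : ZMod N ⊕ ZMod N) ∈ Y := by rw [h.b]; exact hB
    obtain ⟨s1, s2, s3, s4⟩ := hY.starB hb hA hB'
    rw [h.b] at s3 s4
    have g1 : c - 1 + 1 = c := by ring
    have g2 : c - 1 - 1 = c - 2 := by ring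
    rw [g1] at s1
    rw [g2] at s2
    -- coordinates from the rotated graph
    have hN1 : 1 < N := by omega
    have hb' : Bad (rot f) := hb.iso (rotIso hN1 f)
    have h7' : (im (rotIso hN1 f) Y).card = 7 := by
      rw [card_im, h7]
    obtain ⟨c', d', e1, e2, e3, e4⟩ := seven_A hb' (hY.im (rotIso hN1 f)) h7' (x := d)
      (by rw [rot_inl]; exact hB)
      (by
        rw [rot_inr, rot_apply, ← h.b, Equiv.symm_apply_apply, neg_neg]
        exact hA)
    have E1 : ∀ y, (.inr y : ZMod N ⊕ ZMod N) ∈ Y ↔
        (y = c' ∨ y = c' + 1 ∨ y = c' + 2 ∨ y = c' + 3) := by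
      intro y
      rw [← e1, rot_inl]
    have E2 : ∀ y, (.inl y : ZMod N ⊕ ZMod N) ∈ Y ↔
        (-y = d' ∨ -y = d' + 1 ∨ -y = d' + 2) := by
      intro y
      rw [← e2, rot_inr, neg_neg]
    have E4 : ∀ y, y ≠ c - 1 → ((.inl y : ZMod N ⊕ ZMod N) ∈ Y ↔
        (.inr (f y) : ZMod N ⊕ ZMod N) ∈ Y) := by
      intro y hy
      have h1 := e4 (f y) (fun hh => hy (by
        rw [← h.b] at hh
        exact f.injective hh))
      rw [rot_inl, rot_inr, rot_apply, Equiv.symm_apply_apply, neg_neg] at h1
      exact h1.symm
    -- the column of `g`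
    have k1 : (.inl (c + 1) : ZMod N ⊕ ZMod N) ∈ Y :=
      (E4 _ (fun hh => n2 (c - 1) (by linear_combination -hh))).mpr (by rw [h.g]; exact s3)
    -- the column of `D`
    have hv0 : f.symm (d - 1) ≠ c - 1 := by
      intro hh
      rw [Equiv.symm_apply_eq, h.b] at hh
      exact n1 (d - 1) (by linear_combination hh)
    have k2 : (.inl (f.symm (d - 1)) : ZMod N ⊕ ZMod N) ∈ Y :=
      (E4 _ hv0).mpr (by rw [Equiv.apply_symm_apply]; exact s4)
    have hv1 : f.symm (d - 1) ≠ c + 1 := by
      intro hh
      rw [Equiv.symm_apply_eq, h.g] at hh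
      exact n2 (d - 1) (by linear_combination hh)
    have hc : (.inl c : ZMod N ⊕ ZMod N) ∉ Y := s1
    -- the three columns are `c + 1, c + 2, c + 3`
    rw [E2] at k1 k2 hc
    push Not at hc
    obtain ⟨q1, q2, q3⟩ := hc
    have hd : d' + 2 = -(c + 1) := by
      rcases k1 with k1 | k1 | k1
      · exact absurd (by linear_combination k1) q2
      · exact absurd (by linear_combination k1) q3
      · exact k1.symm
    have hv : f.symm (d - 1) = c + 2 ∨ f.symm (d - 1) = c + 3 := by
      rcases k2 with k2 | k2 | k2
      · right; linear_combination -k2 - hd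
      · left; linear_combination -k2 - hd
      · exact absurd (by linear_combination -k2 - hd) hv1
    rcases hv with hv | hv
    · refine h.ne_T2 hN H ?_
      rw [← hv, Equiv.apply_symm_apply]
    · have : f.symm (d - 1) - c = 3 := by rw [hv]; ring
      rw [this, v3] at t2
      omega

end

end Pool.Agent.Helper19.RG
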